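import Pool.Agent.H69.LQ.Lib
import Pool.Agent.H69.LQ.Targets1
import Pool.Agent.H86.LQ.LB

/-!
# lq1_modules, row QN: the normal derivative of the eigenfunction is small
-/

set_option autoImplicit false

open MeasureTheory Metric Set
open scoped ENNReal
open Pool.Agent.H85.LK (E adm lam Ann)
open Pool.Agent.H69.LQ

namespace Pool.Agent.H68.LQ1

open Filter Topology

/-- the bound of the normal derivative in terms of the eigenvalue -/
theorem qn_bound (hJS : T_JS) (N : ℕ) (L : ℝ) (hF : Fz N L) :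
    dph N L 1 1 ^ 2 ≤ L - 4 * ((N : ℝ) + 1) := by
  obtain ⟨m, hm⟩ : ∃ m : ℝ, m = (N : ℝ) / 2 + 1 := ⟨_, rfl⟩
  have hN0 : (0 : ℝ) ≤ N := Nat.cast_nonneg N
  have hm1 : 1 ≤ m := by rw [hm]; linarith
  have hm0 : m ≠ 0 := by positivity
  have hm10 : m + 1 ≠ 0 := by positivity
  obtain ⟨_, hJ0, hJd, hJr⟩ := hJS m (by linarith)
  obtain ⟨_, _, hJd1, _⟩ := hJS (m + 1) (by linarith)
  have hz : J m (L / 4) = 0 := by rw [hm]; exact hF.zero
  have hL : 0 < L := hF.pos
  obtain ⟨c, hc⟩ : ∃ c : ℝ, c = 4 / L := ⟨_, rfl⟩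
  have hcL : c * (L / 4) = 1 := by rw [hc]; field_simp
  have hG1 : ∀ z, HasDerivAt (fun z => -(J (m + 1) z / m)) (J (m + 2) z / (m + 1) / m) z := by
    intro z
    have h := ((hJd1 z).div_const m).neg
    have e : -(-(J (m + 1 + 1) z / (m + 1)) / m) = J (m + 2) z / (m + 1) / m := by
      rw [show m + 1 + 1 = m + 2 by ring, neg_div, neg_neg]
    rw [e] at h
    exact h
  have hK : ∀ z, HasDerivAt (fun z => J m z ^ 2 + z * (-(J (m + 1) z / m)) ^ 2 -
      (2 * m - 1) * (2 * c * J m z + c ^ 2 * z))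
      (-((2 * m - 1) * (-(J (m + 1) z / m) + c) ^ 2)) z := by
    intro z
    have h1 := (hJd z).pow 2
    have h2 := (hasDerivAt_id z).mul ((hG1 z).pow 2)
    have h3 := (((hJd z).const_mul (2 * c)).add
      ((hasDerivAt_id z).const_mul (c ^ 2))).const_mul (2 * m - 1)
    have h4 := (h1.add h2).sub h3
    refine h4.congr_deriv ?_
    have h5 : z * J (m + 2) z = m * (m + 1) * (J (m + 1) z - J m z) := by
      rw [hJr z]
      field_simp
      ring
    simp only [id, Nat.cast_ofNat]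
    norm_num
    field_simp
    linear_combination (-(2 * J (m + 1) z)) * h5
  have hanti : Antitone fun z => J m z ^ 2 + z * (-(J (m + 1) z / m)) ^ 2 -
      (2 * m - 1) * (2 * c * J m z + c ^ 2 * z) := by
    apply antitone_of_deriv_nonpos
    · intro z
      exact (hK z).differentiableAt
    · intro z
      rw [(hK z).deriv]
      have : 0 ≤ (2 * m - 1) * (-(J (m + 1) z / m) + c) ^ 2 :=
        mul_nonneg (by linarith) (sq_nonneg _)
      linarith
  have h6 := hanti (show (0 : ℝ) ≤ L / 4 by positivity)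
  simp only [hz, hJ0] at h6
  have h7 : dph N L 1 1 = 2 * (L / 4) * (-(J (m + 1) (L / 4) / m)) := by
    unfold dph
    have e1 : L * 1 ^ 2 / 4 = L / 4 := by ring
    have e2 : (N : ℝ) / 2 + ((1 : ℕ) : ℝ) = m := by rw [hm]; norm_num
    rw [e1, e2, hz]
    ring
  have h8 : dph N L 1 1 ^ 2 = L * (L / 4 * (-(J (m + 1) (L / 4) / m)) ^ 2) := by
    rw [h7]; ring
  obtain ⟨g, hg⟩ : ∃ g : ℝ, g = L / 4 * (-(J (m + 1) (L / 4) / m)) ^ 2 := ⟨_, rfl⟩
  rw [h8, ← hg]
  rw [← hg] at h6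
  have h9 : g ≤ 1 - (2 * m - 1) * c := by
    have e3 : c ^ 2 * (L / 4) = c := by rw [pow_two, mul_assoc, hcL, mul_one]
    rw [e3] at h6
    nlinarith
  have h10 : L * g ≤ L * (1 - (2 * m - 1) * c) := mul_le_mul_of_nonneg_left h9 hL.le
  have h11 : L * (1 - (2 * m - 1) * c) = L - 4 * ((N : ℝ) + 1) := by
    have e4 : L * c = 4 := by rw [hc]; field_simp
    have e5 : 2 * m - 1 = (N : ℝ) + 1 := by rw [hm]; ring
    rw [e5]
    linear_combination (-((N : ℝ) + 1)) * e4
  linarith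

/-- `J 2 4` is negative. -/
theorem J_two_four : J 2 4 < 0 := by
  have hs := Pool.Agent.H86.LQ.J_summable (m := 2) (z := 4) (by norm_num) (by norm_num)
  have h1 : Tendsto (fun n => ∑ k ∈ Finset.range n, (-1) ^ k * Pool.Agent.H86.LQ.tt 2 4 k) atTop
      (𝓝 (J 2 4)) := by
    have h2 := hs.hasSum.tendsto_sum_nat
    have h3 : ∑' k : ℕ, (-1) ^ k * Pool.Agent.H86.LQ.tt 2 4 k = J 2 4 := by
      unfold J
      exact tsum_congr fun k => (Pool.Agent.H86.LQ.J_term 2 4 k).symm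
    rwa [h3] at h2
  have h0 : Pool.Agent.H86.LQ.tt 2 4 0 = 1 := by
    unfold Pool.Agent.H86.LQ.tt
    simp
  have h4 : Tendsto (fun n => ∑ k ∈ Finset.range n,
      (-1) ^ k * Pool.Agent.H86.LQ.tt 2 4 (k + 1)) atTop (𝓝 (1 - J 2 4)) := by
    have h5 : ∀ n, ∑ k ∈ Finset.range n, (-1) ^ k * Pool.Agent.H86.LQ.tt 2 4 (k + 1) =
        1 - ∑ k ∈ Finset.range (n + 1), (-1) ^ k * Pool.Agent.H86.LQ.tt 2 4 k := by
      intro n
      rw [Finset.sum_range_succ']
      have h7 : ∑ k ∈ Finset.range n, (-1 : ℝ) ^ (k + 1) * Pool.Agent.H86.LQ.tt 2 4 (k + 1) =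
          -∑ k ∈ Finset.range n, (-1 : ℝ) ^ k * Pool.Agent.H86.LQ.tt 2 4 (k + 1) := by
        rw [← Finset.sum_neg_distrib]
        refine Finset.sum_congr rfl fun k _ => ?_
        rw [pow_succ]
        ring
      rw [h7, h0]
      ring
    rw [funext h5]
    exact (((tendsto_add_atTop_iff_nat 1).2 h1).const_sub 1)
  have hanti : Antitone fun k => Pool.Agent.H86.LQ.tt 2 4 (k + 1) := by
    refine antitone_nat_of_succ_le fun k => ?_
    rw [Pool.Agent.H86.LQ.tt_succ (by norm_num) (k + 1)]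
    refine mul_le_of_le_one_right
      (Pool.Agent.H86.LQ.tt_nonneg (by norm_num) (by norm_num) _) ?_
    have hk : (0 : ℝ) ≤ k := Nat.cast_nonneg k
    rw [div_le_one (by push_cast; positivity)]
    push_cast
    nlinarith
  have h8 := hanti.alternating_series_le_tendsto h4 2
  have t1 : Pool.Agent.H86.LQ.tt 2 4 1 = 2 := by
    have h := Pool.Agent.H86.LQ.tt_succ (m := 2) (z := 4) (by norm_num) 0
    rw [h0] at h
    norm_num at h
    exact h
  have t2 : Pool.Agent.H86.LQ.tt 2 4 2 = 4 / 3 := by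
    have h := Pool.Agent.H86.LQ.tt_succ (m := 2) (z := 4) (by norm_num) 1
    rw [t1] at h
    norm_num at h
    exact h
  have t3 : Pool.Agent.H86.LQ.tt 2 4 3 = 4 / 9 := by
    have h := Pool.Agent.H86.LQ.tt_succ (m := 2) (z := 4) (by norm_num) 2
    rw [t2] at h
    norm_num at h
    exact h
  have t4 : Pool.Agent.H86.LQ.tt 2 4 4 = 4 / 45 := by
    have h := Pool.Agent.H86.LQ.tt_succ (m := 2) (z := 4) (by norm_num) 3
    rw [t3] at h
    norm_num at h
    exact h
  rw [show 2 * 2 = 4 by norm_num, Finset.sum_range_succ, Finset.sum_range_succ,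
    Finset.sum_range_succ, Finset.sum_range_succ, Finset.sum_range_zero] at h8
  simp only [Nat.zero_add, Nat.reduceAdd, t1, t2, t3, t4] at h8
  norm_num at h8
  linarith

/-- the bound of the eigenvalue -/
theorem qn_upper (hPH : T_PH) (hPV : T_PV) (N : ℕ) (L : ℝ) (hN : 2 ≤ N) (hF : Fz N L) :
    L < ((N : ℝ) + 2) ^ 2 := by
  by_contra hcon
  push Not at hcon
  rcases Nat.lt_or_eq_of_le hN with hN3 | hN2
  · -- the dimension is at least three
    have hNr : (3 : ℝ) ≤ N := by exact_mod_cast hN3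
    obtain ⟨hp1, hp2, hp3⟩ := hPH N L hN
    obtain ⟨hv1, hv2, _⟩ := hPV N L hN hF
    have hW : ∀ r : ℝ, 0 < r → HasDerivAt
        (fun r => (r ^ (N - 1) * (1 - 6 * r ^ 2 + 5 * r ^ 4)) * ph N L 1 r -
          (r ^ (N - 1) * dph N L 1 r) * (r - 2 * r ^ 3 + r ^ 5))
        (r ^ (N - 1) * r * ph N L 1 r *
          (L * (1 - r ^ 2) ^ 2 - 4 * ((N : ℝ) + 4) * (1 - r ^ 2) + 8)) r := by
      intro r hr
      have hr0 : r ≠ 0 := hr.ne'
      have h1 : HasDerivAt (fun r : ℝ => r ^ (N - 1)) (((N - 1 : ℕ) : ℝ) * r ^ (N - 1 - 1)) r :=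
        hasDerivAt_pow _ r
      have h2 : HasDerivAt (fun r : ℝ => 1 - 6 * r ^ 2 + 5 * r ^ 4) (-12 * r + 20 * r ^ 3) r := by
        have a1 := ((hasDerivAt_pow 2 r).const_mul 6).const_sub 1
        have a2 := (hasDerivAt_pow 4 r).const_mul 5
        refine (a1.add a2).congr_deriv ?_
        norm_num
        ring
      have h3 : HasDerivAt (fun r : ℝ => r - 2 * r ^ 3 + r ^ 5) (1 - 6 * r ^ 2 + 5 * r ^ 4) r := by
        have a1 := ((hasDerivAt_id r).sub ((hasDerivAt_pow 3 r).const_mul 2)).add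
          (hasDerivAt_pow 5 r)
        refine a1.congr_deriv ?_
        norm_num
        ring
      have h4 := ((h1.mul h2).mul (hp1 1 r)).sub ((hp3 1 r hr).mul h3)
      refine h4.congr_deriv ?_
      simp only [Pi.mul_apply]
      have e1 : ((N - 1 : ℕ) : ℝ) = (N : ℝ) - 1 := by
        rw [Nat.cast_sub (by omega)]; norm_num
      have e2 : r ^ (N - 1 - 1) = r ^ (N - 1) / r := by
        rw [eq_div_iff hr0, ← pow_succ]
        congr 1
        omega
      rw [e1, e2]
      obtain ⟨R, hR⟩ : ∃ R : ℝ, R = r ^ (N - 1) := ⟨_, rfl⟩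
      rw [← hR]
      push_cast
      field_simp
      ring
    have hpos : ∀ r : ℝ, 0 < r → r < 1 → 0 < r ^ (N - 1) * r * ph N L 1 r *
          (L * (1 - r ^ 2) ^ 2 - 4 * ((N : ℝ) + 4) * (1 - r ^ 2) + 8) := by
      intro r hr hr1
      have hb : 0 < L * (1 - r ^ 2) ^ 2 - 4 * ((N : ℝ) + 4) * (1 - r ^ 2) + 8 := by
        obtain ⟨u, hu⟩ : ∃ u : ℝ, u = 1 - r ^ 2 := ⟨_, rfl⟩
        rw [← hu]
        have h5 : ((N : ℝ) + 2) ^ 2 * u ^ 2 ≤ L * u ^ 2 :=
          mul_le_mul_of_nonneg_right hcon (sq_nonneg u)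
        have h6 : ((N : ℝ) + 4) ^ 2 < 2 * ((N : ℝ) + 2) ^ 2 := by nlinarith
        -- `8 L u² - 32 (N+4) u + 64 = (L' stuff)`
        have h7 : 0 ≤ (((N : ℝ) + 4) * u - 4) ^ 2 := sq_nonneg _
        rcases eq_or_ne u 0 with hu0 | hu0
        · rw [hu0]; norm_num
        · have h8 : 0 < u ^ 2 := by positivity
          nlinarith [mul_pos (sub_pos.2 h6) h8]
      have := hv1 r hr hr1
      positivity
    have hcont : Continuous fun r : ℝ => (r ^ (N - 1) * (1 - 6 * r ^ 2 + 5 * r ^ 4)) * ph N L 1 r -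
          (r ^ (N - 1) * dph N L 1 r) * (r - 2 * r ^ 3 + r ^ 5) := by
      have c1 : Continuous (ph N L 1) := (hp2 1).1.continuous
      have c2 : Continuous (dph N L 1) := (hp2 1).2.continuous
      fun_prop
    have hmono := strictMonoOn_of_deriv_pos (convex_Icc (0 : ℝ) 1) hcont.continuousOn (by
      intro r hr
      rw [interior_Icc] at hr
      rw [(hW r hr.1).deriv]
      exact hpos r hr.1 hr.2)
    have h9 := hmono (left_mem_Icc.2 zero_le_one) (right_mem_Icc.2 zero_le_one) zero_lt_one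
    simp only [hv2] at h9
    have h10 : (0 : ℝ) ^ (N - 1) = 0 := zero_pow (by omega)
    rw [h10] at h9
    norm_num at h9
  · -- the plane
    subst hN2
    have h1 : (4 : ℝ) ≤ L / 4 := by norm_num at hcon; linarith
    have h2 : 0 ≤ J 2 4 := by
      have e : ((2 : ℕ) : ℝ) / 2 + 1 = 2 := by norm_num
      rcases eq_or_lt_of_le h1 with h3 | h3
      · have h4 := hF.zero
        rw [← h3, e] at h4
        exact h4.ge
      · have h4 := hF.first 4 (by norm_num) h3
        rw [e] at h4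
        exact h4.le
    exact absurd J_two_four (not_lt.2 h2)

theorem pf_QN (hJS : T_JS) (hPH : T_PH) (hPV : T_PV) : T_QN := by
  intro N L hN hF
  have h1 := qn_bound hJS N L hF
  have h2 := qn_upper hPH hPV N L hN hF
  nlinarith

end Pool.Agent.H68.LQ1
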